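import Mathlib

/-!
# Project QB: the norm of a point, the algebra
-/

set_option autoImplicit false

namespace Pool.Agent.N73.QB

section

variable {k : Type} [Field k]

/-- the local condition with the classes `n₁`, `n₂` -/
def Cl (a b c n₁ n₂ : k) : Prop :=
  ∃ x y : k, y ≠ 0 ∧ y ^ 2 = (x - a) * (x - b) * (x - c) ∧ IsSquare ((x - a) * n₁) ∧
    IsSquare ((x - b) * n₂)

/-- there is a point with the trivial class -/
def Pt0 (a b c : k) : Prop :=
  ∃ x y : k, y ≠ 0 ∧ y ^ 2 = (x - a) * (x - b) * (x - c) ∧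
      IsSquare (x - a) ∧ IsSquare (x - b) ∧ IsSquare (x - c)

lemma Pt0.cl {a b c : k} (h : Pt0 a b c) {n₁ n₂ : k} (h1 : IsSquare n₁) (h2 : IsSquare n₂) :
    Cl a b c n₁ n₂ := by
  obtain ⟨x, y, hy, he, ha, hb, -⟩ := h
  exact ⟨x, y, hy, he, ha.mul h1, hb.mul h2⟩

lemma Cl.congr {a b c n₁ n₂ m₁ m₂ : k} (h : Cl a b c n₁ n₂) (h1 : IsSquare (n₁ * m₁))
    (h2 : IsSquare (n₂ * m₂)) (h3 : n₁ ≠ 0) (h4 : n₂ ≠ 0) : Cl a b c m₁ m₂ := by
  obtain ⟨x, y, hy, he, ha, hb⟩ := h
  refine ⟨x, y, hy, he, ?_, ?_⟩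
  · obtain ⟨s, hs⟩ := ha.mul h1
    refine ⟨s / n₁, ?_⟩
    field_simp
    linear_combination hs
  · obtain ⟨s, hs⟩ := hb.mul h2
    refine ⟨s / n₂, ?_⟩
    field_simp
    linear_combination hs

lemma ne_of_eqn {a b c x y : k} (hy : y ≠ 0) (he : y ^ 2 = (x - a) * (x - b) * (x - c)) :
    x - a ≠ 0 ∧ x - b ≠ 0 ∧ x - c ≠ 0 := by
  have h := pow_ne_zero 2 hy
  rw [he] at h
  exact ⟨left_ne_zero_of_mul (left_ne_zero_of_mul h), right_ne_zero_of_mul (left_ne_zero_of_mul h),
    right_ne_zero_of_mul h⟩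

/-- the sum with a point of order two, with the classes -/
lemma tr_cl {a b c : k} (hab : a ≠ b) (hac : a ≠ c) (h0 : Pt0 a b c) :
    ∃ x y : k, y ≠ 0 ∧ y ^ 2 = (x - a) * (x - b) * (x - c) ∧
      IsSquare ((x - a) * ((a - b) * (a - c))) ∧ IsSquare ((x - b) * (a - b)) ∧
      IsSquare ((x - c) * (a - c)) := by
  obtain ⟨x, y, hy, he, ha, hb, hc⟩ := h0
  obtain ⟨n1, n2, n3⟩ := ne_of_eqn hy he
  have hab' : a - b ≠ 0 := sub_ne_zero.2 hab
  have hac' : a - c ≠ 0 := sub_ne_zero.2 hac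
  obtain ⟨A, hA⟩ := ha
  obtain ⟨B, hB⟩ := hb
  obtain ⟨C, hC⟩ := hc
  have nA : A ≠ 0 := by rintro rfl; exact n1 (by rw [hA, mul_zero])
  have nB : B ≠ 0 := by rintro rfl; exact n2 (by rw [hB, mul_zero])
  have nC : C ≠ 0 := by rintro rfl; exact n3 (by rw [hC, mul_zero])
  have e1 : a + (a - b) * (a - c) / (x - a) - a = (a - b) * (a - c) / (x - a) := by ring
  have e2 : a + (a - b) * (a - c) / (x - a) - b = (a - b) * (x - c) / (x - a) := by
    field_simp; ring
  have e3 : a + (a - b) * (a - c) / (x - a) - c = (a - c) * (x - b) / (x - a) := by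
    field_simp; ring
  refine ⟨a + (a - b) * (a - c) / (x - a), - y * ((a - b) * (a - c)) / (x - a) ^ 2, ?_, ?_,
    ⟨(a - b) * (a - c) / A, ?_⟩, ⟨(a - b) * C / A, ?_⟩, ⟨(a - c) * B / A, ?_⟩⟩
  · exact div_ne_zero (mul_ne_zero (neg_ne_zero.2 hy) (mul_ne_zero hab' hac')) (pow_ne_zero 2 n1)
  · rw [e1, e2, e3, div_pow, mul_pow, neg_sq, he]
    field_simp
  · rw [e1, hA]
    field_simp
  · rw [e2, hA, hC]
    field_simp
  · rw [e3, hA, hB]
    field_simp

/-- **The norm of a point.** -/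
theorem nrm_pt {a b c : k} (hab : a ≠ b) (hac : a ≠ c) (hbc : b ≠ c) (h0 : Pt0 a b c)
    {s t l m x₃ : k} (h1 : x₃ + s = a + b + c + l ^ 2)
    (h2 : t + s * x₃ = a * b + a * c + b * c - 2 * l * m) (h3 : t * x₃ = a * b * c + m ^ 2)
    (na : a ^ 2 - s * a + t ≠ 0) (nb : b ^ 2 - s * b + t ≠ 0) (nc : c ^ 2 - s * c + t ≠ 0)
    (hsq : IsSquare ((a ^ 2 - s * a + t) * (b ^ 2 - s * b + t) * (c ^ 2 - s * c + t))) :
    Cl a b c (a ^ 2 - s * a + t) (b ^ 2 - s * b + t) := by
  have key : ∀ e : k, (e ^ 2 - s * e + t) * (x₃ - e) =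
      (l * e + m) ^ 2 - (e - a) * (e - b) * (e - c) := by
    intro e
    linear_combination (-e ^ 2) * h1 * (-1) + (-e) * h2 * (1) + h3
  have ka : (a ^ 2 - s * a + t) * (x₃ - a) = (l * a + m) ^ 2 := by
    rw [key a]; ring
  have kb : (b ^ 2 - s * b + t) * (x₃ - b) = (l * b + m) ^ 2 := by
    rw [key b]; ring
  have kc : (c ^ 2 - s * c + t) * (x₃ - c) = (l * c + m) ^ 2 := by
    rw [key c]; ring
  have k3 : (l * x₃ + m) ^ 2 = (x₃ - a) * (x₃ - b) * (x₃ - c) := by
    have := key x₃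
    rw [sub_self, mul_zero] at this
    linear_combination -this
  set Na := a ^ 2 - s * a + t with hNa
  set Nb := b ^ 2 - s * b + t with hNb
  set Nc := c ^ 2 - s * c + t with hNc
  obtain ⟨S, hS⟩ := hsq
  by_cases ha : x₃ = a
  · subst ha
    have hab' : x₃ - b ≠ 0 := sub_ne_zero.2 hab
    have hac' : x₃ - c ≠ 0 := sub_ne_zero.2 hac
    obtain ⟨x, y, hy, he, q1, q2, q3⟩ := tr_cl hab hac h0
    refine ⟨x, y, hy, he, ?_, ?_⟩
    · obtain ⟨Q, hQ⟩ := q1
      -- `Na (a - b) (a - c)` is a square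
      have e : (x - x₃) * Na = (Q * S * (l * b + m) * (l * c + m) /
          (Nb * Nc * (x₃ - b) * (x₃ - c))) * (Q * S * (l * b + m) * (l * c + m) /
          (Nb * Nc * (x₃ - b) * (x₃ - c))) := by
        rw [div_mul_div_comm, eq_div_iff (by
          exact mul_ne_zero (mul_ne_zero (mul_ne_zero (mul_ne_zero nb nc) hab') hac')
            (mul_ne_zero (mul_ne_zero (mul_ne_zero nb nc) hab') hac'))]
        have : Q * S * (l * b + m) * (l * c + m) * (Q * S * (l * b + m) * (l * c + m)) =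
          (Q * Q) * (S * S) * (l * b + m) ^ 2 * (l * c + m) ^ 2 := by ring
        rw [this, ← hQ, ← hS, ← kb, ← kc]
        ring
      exact ⟨_, e⟩
    · obtain ⟨Q, hQ⟩ := q2
      refine ⟨Q * (l * b + m) / (x₃ - b), ?_⟩
      rw [div_mul_div_comm, eq_div_iff (mul_ne_zero hab' hab')]
      have : Q * (l * b + m) * (Q * (l * b + m)) = (Q * Q) * (l * b + m) ^ 2 := by ring
      rw [this, ← hQ, ← kb]
      ring
  by_cases hb : x₃ = b
  · subst hb
    have hba' : x₃ - a ≠ 0 := sub_ne_zero.2 (Ne.symm hab)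
    have hbc' : x₃ - c ≠ 0 := sub_ne_zero.2 hbc
    have h0' : Pt0 x₃ a c := by
      obtain ⟨x, y, hy, he, u1, u2, u3⟩ := h0
      exact ⟨x, y, hy, by rw [he]; ring, u2, u1, u3⟩
    obtain ⟨x, y, hy, he, q1, q2, q3⟩ := tr_cl (Ne.symm hab) hbc h0'
    refine ⟨x, y, hy, by rw [he]; ring, ?_, ?_⟩
    · obtain ⟨Q, hQ⟩ := q2
      refine ⟨Q * (l * a + m) / (x₃ - a), ?_⟩
      rw [div_mul_div_comm, eq_div_iff (mul_ne_zero hba' hba')]
      have : Q * (l * a + m) * (Q * (l * a + m)) = (Q * Q) * (l * a + m) ^ 2 := by ring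
      rw [this, ← hQ, ← ka]
      ring
    · obtain ⟨Q, hQ⟩ := q1
      have e : (x - x₃) * Nb = (Q * S * (l * a + m) * (l * c + m) /
          (Na * Nc * (x₃ - a) * (x₃ - c))) * (Q * S * (l * a + m) * (l * c + m) /
          (Na * Nc * (x₃ - a) * (x₃ - c))) := by
        rw [div_mul_div_comm, eq_div_iff (by
          exact mul_ne_zero (mul_ne_zero (mul_ne_zero (mul_ne_zero na nc) hba') hbc')
            (mul_ne_zero (mul_ne_zero (mul_ne_zero na nc) hba') hbc'))]
        have : Q * S * (l * a + m) * (l * c + m) * (Q * S * (l * a + m) * (l * c + m)) =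
          (Q * Q) * (S * S) * (l * a + m) ^ 2 * (l * c + m) ^ 2 := by ring
        rw [this, ← hQ, ← hS, ← ka, ← kc]
        ring
      exact ⟨_, e⟩
  by_cases hc : x₃ = c
  · subst hc
    have hca' : x₃ - a ≠ 0 := sub_ne_zero.2 (Ne.symm hac)
    have hcb' : x₃ - b ≠ 0 := sub_ne_zero.2 (Ne.symm hbc)
    have h0' : Pt0 x₃ a b := by
      obtain ⟨x, y, hy, he, u1, u2, u3⟩ := h0
      exact ⟨x, y, hy, by rw [he]; ring, u3, u1, u2⟩
    obtain ⟨x, y, hy, he, q1, q2, q3⟩ := tr_cl (Ne.symm hac) (Ne.symm hbc) h0'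
    refine ⟨x, y, hy, by rw [he]; ring, ?_, ?_⟩
    · obtain ⟨Q, hQ⟩ := q2
      refine ⟨Q * (l * a + m) / (x₃ - a), ?_⟩
      rw [div_mul_div_comm, eq_div_iff (mul_ne_zero hca' hca')]
      have : Q * (l * a + m) * (Q * (l * a + m)) = (Q * Q) * (l * a + m) ^ 2 := by ring
      rw [this, ← hQ, ← ka]
      ring
    · obtain ⟨Q, hQ⟩ := q3
      refine ⟨Q * (l * b + m) / (x₃ - b), ?_⟩
      rw [div_mul_div_comm, eq_div_iff (mul_ne_zero hcb' hcb')]
      have : Q * (l * b + m) * (Q * (l * b + m)) = (Q * Q) * (l * b + m) ^ 2 := by ring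
      rw [this, ← hQ, ← kb]
      ring
  · refine ⟨x₃, l * x₃ + m, ?_, k3, ⟨l * a + m, ?_⟩, ⟨l * b + m, ?_⟩⟩
    · intro h
      rw [h, zero_pow two_ne_zero] at k3
      rcases mul_eq_zero.1 k3.symm with h4 | h4
      · rcases mul_eq_zero.1 h4 with h5 | h5
        · exact ha (sub_eq_zero.1 h5)
        · exact hb (sub_eq_zero.1 h5)
      · exact hc (sub_eq_zero.1 h4)
    · rw [mul_comm, ka]; ring
    · rw [mul_comm, kb]; ring

lemma lin_zero {L : Type} [Field L] [Algebra k L] {s : L} {D : k}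
    (hs : s ^ 2 = algebraMap k L D) (hD : ¬ IsSquare D) {α β : k}
    (h : algebraMap k L α + algebraMap k L β * s = 0) : α = 0 ∧ β = 0 := by
  have hβ : β = 0 := by
    by_contra hβ
    apply hD
    refine ⟨α / β, (algebraMap k L).injective ?_⟩
    have hβ' : algebraMap k L β ≠ 0 := (map_ne_zero _).2 hβ
    rw [← hs, map_mul, map_div₀]
    field_simp
    linear_combination (algebraMap k L β * s - algebraMap k L α) * h
  subst hβ
  rw [map_zero, zero_mul, add_zero, map_eq_zero] at h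
  exact ⟨h, rfl⟩

lemma lin_ext {L : Type} [Field L] [Algebra k L] {s : L} {D : k}
    (hs : s ^ 2 = algebraMap k L D) (hD : ¬ IsSquare D) {α β γ δ : k}
    (h : algebraMap k L α + algebraMap k L β * s = algebraMap k L γ + algebraMap k L δ * s) :
    α = γ ∧ β = δ := by
  have := lin_zero hs hD (α := α - γ) (β := β - δ) (by
    rw [map_sub, map_sub]; linear_combination h)
  exact ⟨sub_eq_zero.1 this.1, sub_eq_zero.1 this.2⟩

lemma nrm_sq {L : Type} [Field L] [Algebra k L] {s : L} {D : k}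
    (hs : s ^ 2 = algebraMap k L D) (hD : ¬ IsSquare D)
    (hL : ∀ x : L, ∃ α β : k, x = algebraMap k L α + algebraMap k L β * s) {α β : k}
    (h : IsSquare (algebraMap k L α + algebraMap k L β * s)) : IsSquare (α ^ 2 - D * β ^ 2) := by
  obtain ⟨v, hv⟩ := h
  obtain ⟨γ, δ, rfl⟩ := hL v
  have h1 : algebraMap k L α + algebraMap k L β * s =
      algebraMap k L (γ ^ 2 + D * δ ^ 2) + algebraMap k L (2 * γ * δ) * s := by
    rw [hv]
    simp only [map_add, map_mul, map_pow, map_ofNat]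
    linear_combination (algebraMap k L δ) ^ 2 * hs
  obtain ⟨e1, e2⟩ := lin_ext hs hD h1
  exact ⟨γ ^ 2 - D * δ ^ 2, by rw [e1, e2]; ring⟩

/-- the norm of a point over a quadratic extension -/
theorem quad_pt {L : Type} [Field L] [Algebra k L] {s : L} {D : k}
    (hs : s ^ 2 = algebraMap k L D) (hD : ¬ IsSquare D)
    (hL : ∀ x : L, ∃ α β : k, x = algebraMap k L α + algebraMap k L β * s)
    {a b c : k} (hab : a ≠ b) (hac : a ≠ c) (hbc : b ≠ c) (h0 : Pt0 a b c)
    {α₁ β₁ α₂ β₂ : k} (h : Cl (algebraMap k L a) (algebraMap k L b) (algebraMap k L c)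
      (algebraMap k L α₁ + algebraMap k L β₁ * s) (algebraMap k L α₂ + algebraMap k L β₂ * s)) :
    Cl a b c (α₁ ^ 2 - D * β₁ ^ 2) (α₂ ^ 2 - D * β₂ ^ 2) := by
  obtain ⟨x, y, hy, he, p1, p2⟩ := h
  obtain ⟨u1, u2, u3⟩ := ne_of_eqn hy he
  obtain ⟨α, β, rfl⟩ := hL x
  obtain ⟨γ, δ, rfl⟩ := hL y
  have q1 : IsSquare (((α - a) ^ 2 - D * β ^ 2) * (α₁ ^ 2 - D * β₁ ^ 2)) := by
    have := nrm_sq hs hD hL (α := (α - a) * α₁ + D * β * β₁) (β := (α - a) * β₁ + β * α₁) (by
      convert p1 using 1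
      simp only [map_add, map_mul, map_sub]
      linear_combination (-(algebraMap k L β * algebraMap k L β₁)) * hs)
    convert this using 1
    ring
  have q2 : IsSquare (((α - b) ^ 2 - D * β ^ 2) * (α₂ ^ 2 - D * β₂ ^ 2)) := by
    have := nrm_sq hs hD hL (α := (α - b) * α₂ + D * β * β₂) (β := (α - b) * β₂ + β * α₂) (by
      convert p2 using 1
      simp only [map_add, map_mul, map_sub]
      linear_combination (-(algebraMap k L β * algebraMap k L β₂)) * hs)
    convert this using 1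
    ring
  have hn : ∀ e : k, algebraMap k L α + algebraMap k L β * s - algebraMap k L e ≠ 0 →
      (α - e) ^ 2 - D * β ^ 2 ≠ 0 := by
    intro e he0 h0
    by_cases hβ : β = 0
    · subst hβ
      apply he0
      have : α - e = 0 := by
        have : (α - e) ^ 2 = 0 := by linear_combination h0
        exact pow_eq_zero_iff two_ne_zero |>.1 this
      rw [map_zero, zero_mul, add_zero, ← map_sub, this, map_zero]
    · apply hD
      refine ⟨(α - e) / β, ?_⟩
      field_simp
      linear_combination -h0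
  have n1 := hn a u1
  have n2 := hn b u2
  have n3 := hn c u3
  by_cases hβ : β = 0
  · subst hβ
    refine h0.cl ?_ ?_
    · obtain ⟨t, ht⟩ := q1
      have : α - a ≠ 0 := by
        intro h; apply n1; rw [h]; ring
      refine ⟨t / (α - a), ?_⟩
      field_simp
      linear_combination ht
    · obtain ⟨t, ht⟩ := q2
      have : α - b ≠ 0 := by
        intro h; apply n2; rw [h]; ring
      refine ⟨t / (α - b), ?_⟩
      field_simp
      linear_combination ht
  · set l := δ / β with hl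
    set m := γ - l * α with hm
    have el : δ = l * β := by rw [hl]; field_simp
    have em : γ = l * α + m := by rw [hm]; ring
    set x₃ := a + b + c + l ^ 2 - 2 * α with hx3
    have hR : algebraMap k L ((a * b + a * c + b * c - 2 * l * m - (α ^ 2 - D * β ^ 2) -
        2 * α * x₃) * α + ((α ^ 2 - D * β ^ 2) * x₃ - a * b * c - m ^ 2)) +
        algebraMap k L ((a * b + a * c + b * c - 2 * l * m - (α ^ 2 - D * β ^ 2) -
        2 * α * x₃) * β) * s = 0 := by
      rw [em, el] at he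
      rw [hx3]
      simp only [map_add, map_mul, map_sub, map_pow, map_ofNat] at he ⊢
      generalize algebraMap k L a = a' at he ⊢
      generalize algebraMap k L b = b' at he ⊢
      generalize algebraMap k L c = c' at he ⊢
      generalize algebraMap k L α = α' at he ⊢
      generalize algebraMap k L β = β' at he ⊢
      generalize algebraMap k L l = l' at he ⊢
      generalize algebraMap k L m = m' at he ⊢
      rw [← hs]
      linear_combination -he
    obtain ⟨z1, z2⟩ := lin_zero hs hD hR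
    have g1 : a * b + a * c + b * c - 2 * l * m - (α ^ 2 - D * β ^ 2) - 2 * α * x₃ = 0 :=
      (mul_eq_zero.1 z2).resolve_right hβ
    have g2 : (α ^ 2 - D * β ^ 2) * x₃ - a * b * c - m ^ 2 = 0 := by
      rw [g1, zero_mul, zero_add] at z1
      exact z1
    have r1 : a ^ 2 - (2 * α) * a + (α ^ 2 - D * β ^ 2) = (α - a) ^ 2 - D * β ^ 2 := by ring
    have r2 : b ^ 2 - (2 * α) * b + (α ^ 2 - D * β ^ 2) = (α - b) ^ 2 - D * β ^ 2 := by ring
    have r3 : c ^ 2 - (2 * α) * c + (α ^ 2 - D * β ^ 2) = (α - c) ^ 2 - D * β ^ 2 := by ring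
    have hsq : IsSquare (((α - a) ^ 2 - D * β ^ 2) * ((α - b) ^ 2 - D * β ^ 2) *
        ((α - c) ^ 2 - D * β ^ 2)) := by
      have := nrm_sq hs hD hL
        (α := (α - a) * (α - b) * (α - c) + D * β ^ 2 * ((α - a) + (α - b) + (α - c)))
        (β := β * ((α - a) * (α - b) + (α - a) * (α - c) + (α - b) * (α - c)) + D * β ^ 3) (by
          refine ⟨algebraMap k L γ + algebraMap k L δ * s, ?_⟩
          simp only [map_add, map_mul, map_sub, map_pow]
          linear_combination (-1 : L) * he - ((algebraMap k L β) ^ 2 * ((algebraMap k L α -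
            algebraMap k L a) + (algebraMap k L α - algebraMap k L b) + (algebraMap k L α -
            algebraMap k L c)) + (algebraMap k L β) ^ 3 * s) * hs)
      convert this using 1
      ring
    have := nrm_pt hab hac hbc h0 (s := 2 * α) (t := α ^ 2 - D * β ^ 2) (l := l) (m := m)
      (x₃ := x₃) (by rw [hx3]; ring) (by linear_combination -g1) (by linear_combination g2)
      (by rw [r1]; exact n1) (by rw [r2]; exact n2)
      (by rw [r3]; exact n3) (by rw [r1, r2, r3]; exact hsq)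
    rw [r1, r2] at this
    exact this.congr q1 q2 n1 n2

/-- the sum of two points over `k` -/
theorem sum_pt {a b c : k} (hab : a ≠ b) (hac : a ≠ c) (hbc : b ≠ c) (h0 : Pt0 a b c)
    {n₁ n₂ m₁ m₂ : k} (h : Cl a b c n₁ n₂) (h' : Cl a b c m₁ m₂) :

    Cl a b c (n₁ * m₁) (n₂ * m₂) := by
  obtain ⟨x, y, hy, he, p1, p2⟩ := h
  obtain ⟨x', y', hy', he', p1', p2'⟩ := h'
  obtain ⟨u1, u2, u3⟩ := ne_of_eqn hy he
  obtain ⟨v1, v2, v3⟩ := ne_of_eqn hy' he'
  by_cases hx : x = x'
  · subst hx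
    refine h0.cl ?_ ?_
    · obtain ⟨s, hs⟩ := p1.mul p1'
      refine ⟨s / (x - a), ?_⟩
      field_simp
      linear_combination hs
    · obtain ⟨s, hs⟩ := p2.mul p2'
      refine ⟨s / (x - b), ?_⟩
      field_simp
      linear_combination hs
  · have hxx : x - x' ≠ 0 := sub_ne_zero.2 hx
    set l := (y - y') / (x - x') with hl
    set m := y - l * x with hm
    have e1 : y = l * x + m := by rw [hm]; ring
    have e2 : y' = l * x' + m := by
      rw [hm, hl]; field_simp; ring
    -- the remainder vanishes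
    set x₃ := a + b + c + l ^ 2 - (x + x') with hx3
    have f1 : (a * b + a * c + b * c - 2 * l * m - x * x' - (x + x') * x₃) * x +
        (x * x' * x₃ - a * b * c - m ^ 2) = 0 := by
      rw [hx3]
      have : (l * x + m) ^ 2 = (x - a) * (x - b) * (x - c) := by rw [← e1]; exact he
      linear_combination -this
    have f2 : (a * b + a * c + b * c - 2 * l * m - x * x' - (x + x') * x₃) * x' +
        (x * x' * x₃ - a * b * c - m ^ 2) = 0 := by
      rw [hx3]
      have : (l * x' + m) ^ 2 = (x' - a) * (x' - b) * (x' - c) := by rw [← e2]; exact he'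
      linear_combination -this
    have g1 : a * b + a * c + b * c - 2 * l * m - x * x' - (x + x') * x₃ = 0 := by
      have : (a * b + a * c + b * c - 2 * l * m - x * x' - (x + x') * x₃) * (x - x') = 0 := by
        linear_combination f1 - f2
      exact (mul_eq_zero.1 this).resolve_right hxx
    have g2 : x * x' * x₃ - a * b * c - m ^ 2 = 0 := by
      rw [g1, zero_mul, zero_add] at f1
      exact f1
    have r1 : a ^ 2 - (x + x') * a + x * x' = (x - a) * (x' - a) := by ring
    have r2 : b ^ 2 - (x + x') * b + x * x' = (x - b) * (x' - b) := by ring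
    have r3 : c ^ 2 - (x + x') * c + x * x' = (x - c) * (x' - c) := by ring
    have := nrm_pt hab hac hbc h0 (s := x + x') (t := x * x') (l := l) (m := m) (x₃ := x₃)
      (by rw [hx3]; ring) (by linear_combination -g1) (by linear_combination g2)
      (by rw [r1]; exact mul_ne_zero u1 v1) (by rw [r2]; exact mul_ne_zero u2 v2)
      (by rw [r3]; exact mul_ne_zero u3 v3)
      (by
        rw [r1, r2, r3]
        refine ⟨y * y', ?_⟩
        linear_combination (-((x' - a) * (x' - b) * (x' - c))) * he - y ^ 2 * he')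
    rw [r1, r2] at this
    refine this.congr ?_ ?_ (mul_ne_zero u1 v1) (mul_ne_zero u2 v2)
    · obtain ⟨s, hs⟩ := p1.mul p1'
      exact ⟨s, by linear_combination hs⟩
    · obtain ⟨s, hs⟩ := p2.mul p2'
      exact ⟨s, by linear_combination hs⟩

end

end Pool.Agent.N73.QB
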