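import Mathlib

/-!
# Project QB: embeddings of completions of a number field into complete normed fields
-/

set_option autoImplicit false
set_option linter.unusedSectionVars false

attribute [-instance] DivisionRing.toRatAlgebra

namespace Pool.Agent.N73.QB

open IsDedekindDomain NumberField WithZero

section

variable {K : Type} [Field K] [NumberField K] {L : Type} [NormedField L] [IsUltrametricDist L]
  (σ : K →+* L)

lemma nrm_int (x : 𝓞 K) : ‖σ (algebraMap (𝓞 K) K x)‖ ≤ 1 := by
  have h : IsIntegral ℤ (σ (algebraMap (𝓞 K) K x)) :=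
    (RingOfIntegers.isIntegral_coe x).map σ.toIntAlgHom
  have h2 : IsIntegral (NormedField.valuation (K := L)).integer (σ (algebraMap (𝓞 K) K x)) :=
    h.tower_top
  have h3 := (Valuation.integer.integers (NormedField.valuation (K := L))).mem_of_integral h2
  exact h3

/-- the prime ideal -/
noncomputable def pI : Ideal (𝓞 K) where
  carrier := {x | ‖σ (algebraMap (𝓞 K) K x)‖ < 1}
  zero_mem' := by
    show ‖σ (algebraMap (𝓞 K) K 0)‖ < 1
    rw [map_zero, map_zero, norm_zero]
    exact zero_lt_one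
  add_mem' := by
    intro a b ha hb
    show ‖σ (algebraMap (𝓞 K) K (a + b))‖ < 1
    rw [map_add, map_add]
    exact (IsUltrametricDist.norm_add_le_max _ _).trans_lt (max_lt ha hb)
  smul_mem' := by
    intro a b hb
    show ‖σ (algebraMap (𝓞 K) K (a * b))‖ < 1
    rw [map_mul, map_mul, norm_mul]
    exact mul_lt_one_of_nonneg_of_lt_one_right (nrm_int σ a) (norm_nonneg _) hb

lemma mem_pI (x : 𝓞 K) : x ∈ pI σ ↔ ‖σ (algebraMap (𝓞 K) K x)‖ < 1 := Iff.rfl

instance pI_prime : (pI σ).IsPrime := by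
  refine ⟨?_, ?_⟩
  · rw [Ideal.ne_top_iff_one, mem_pI, map_one, map_one, norm_one]
    exact lt_irrefl _
  · intro x y hxy
    rw [mem_pI, map_mul, map_mul, norm_mul] at hxy
    by_contra h
    rw [not_or, mem_pI, mem_pI, not_lt, not_lt] at h
    nlinarith [h.1, h.2]

variable {σ} in
lemma pI_ne_bot {p : ℕ} (hp : p ≠ 0) (hpl : ‖(p : L)‖ < 1) : pI σ ≠ ⊥ := by
  intro h
  have h2 : ((p : ℕ) : 𝓞 K) ∈ pI σ := by
    rw [mem_pI, map_natCast, map_natCast]
    exact hpl
  rw [h, Ideal.mem_bot, Nat.cast_eq_zero] at h2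
  exact hp h2

/-- the place -/
noncomputable def pw {p : ℕ} (hp : p ≠ 0) (hpl : ‖(p : L)‖ < 1) : HeightOneSpectrum (𝓞 K) :=
  ⟨pI σ, inferInstance, pI_ne_bot hp hpl⟩

variable {p : ℕ} (hp : p ≠ 0) (hpl : ‖(p : L)‖ < 1)

lemma pw_le_one {x : K} (hx : (pw σ hp hpl).valuation K x ≤ 1) : ‖σ x‖ ≤ 1 := by
  obtain ⟨n, d, h⟩ := (pw σ hp hpl).exists_primeCompl_mul_eq_of_integer x hx
  have hd : ‖σ (algebraMap (𝓞 K) K d)‖ = 1 := by
    refine le_antisymm (nrm_int σ _) ?_
    have : (d : 𝓞 K) ∉ pI σ := d.2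
    rw [mem_pI, not_lt] at this
    exact this
  have h1 := congrArg (fun z => ‖σ z‖) h
  simp only [map_mul, norm_mul] at h1
  rw [hd, mul_one] at h1
  rw [h1]
  exact nrm_int σ n

lemma exists_pw_lt {ε : ℝ} (hε : 0 < ε) : ∃ π : K, π ≠ 0 ∧
    ∀ x : K, (pw σ hp hpl).valuation K x < (pw σ hp hpl).valuation K π → ‖σ x‖ < ε := by
  obtain ⟨k, hk⟩ := exists_pow_lt_of_lt_one hε hpl
  have hp0 : ((p : ℕ) : K) ≠ 0 := Nat.cast_ne_zero.2 hp
  refine ⟨(p : K) ^ k, pow_ne_zero _ hp0, fun x hx => ?_⟩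
  have h1 : ‖σ (x / (p : K) ^ k)‖ ≤ 1 := by
    apply pw_le_one σ hp hpl
    rw [map_div₀]
    exact (div_le_one₀ (zero_lt_iff.2 ((Valuation.ne_zero_iff _).2 (pow_ne_zero _ hp0)))).2 hx.le
  have hpL : ((p : ℕ) : L) ≠ 0 := by
    have := (map_ne_zero σ).2 hp0
    rwa [map_natCast] at this
  rw [map_div₀, norm_div, map_pow, map_natCast, norm_pow, div_le_one₀] at h1
  · exact h1.trans_lt hk
  · exact pow_pos (norm_pos_iff.2 hpL) k

/-- the map of the dense subfield -/
noncomputable def sd : WithVal ((pw σ hp hpl).valuation K) →+* L :=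
  σ.comp (WithVal.equiv ((pw σ hp hpl).valuation K)).toRingHom

lemma sd_cont : Continuous (sd σ hp hpl) := by
  apply continuous_of_continuousAt_zero
  unfold ContinuousAt
  rw [map_zero]
  intro s hs
  rw [Metric.mem_nhds_iff] at hs
  obtain ⟨ε, hε, hs⟩ := hs
  obtain ⟨π, hπ0, hπ⟩ := exists_pw_lt σ hp hpl hε
  rw [Filter.mem_map, Valued.mem_nhds_zero]
  have hv : (Valued.v : Valuation (WithVal ((pw σ hp hpl).valuation K)) _).restrict
      ((WithVal.equiv ((pw σ hp hpl).valuation K)).symm π) ≠ 0 := by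
    rw [Ne, Valuation.restrict_eq_zero_iff]
    exact (Valuation.ne_zero_iff _).2 ((map_ne_zero_iff _ (RingEquiv.injective _)).2 hπ0)
  refine ⟨Units.mk0 _ hv, fun x hx => ?_⟩
  have hx' : (Valued.v : Valuation (WithVal ((pw σ hp hpl).valuation K)) _).restrict x <
    (Valued.v : Valuation (WithVal ((pw σ hp hpl).valuation K)) _).restrict
      ((WithVal.equiv ((pw σ hp hpl).valuation K)).symm π) := hx
  rw [Valuation.restrict_lt_iff] at hx'
  apply hs
  rw [mem_ball_zero_iff]
  exact hπ (WithVal.equiv ((pw σ hp hpl).valuation K) x) hx'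

variable [CompleteSpace L]

/-- the map of the completion -/
noncomputable def sx : (pw σ hp hpl).adicCompletion K →+* L :=
  (UniformSpace.Completion.extensionHom (sd σ hp hpl) (sd_cont σ hp hpl)).comp
      (HeightOneSpectrum.adicCompletion.equiv K (pw σ hp hpl)).toRingHom

lemma sx_coe (x : K) : sx σ hp hpl (algebraMap K _ x) = σ x := by
  change (UniformSpace.Completion.extensionHom (sd σ hp hpl) (sd_cont σ hp hpl)
    ((WithVal.equiv ((pw σ hp hpl).valuation K)).symm x :
      ((pw σ hp hpl).valuation K).Completion)) = _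
  rw [UniformSpace.Completion.extensionHom_coe]
  rfl

include hp hpl in
/-- an embedding of a number field into a complete nonarchimedean field of residue characteristic `p`
extends to the completion at a place -/
theorem exists_hom : ∃ (w : HeightOneSpectrum (𝓞 K)) (φ : w.adicCompletion K →+* L),
    ∀ x : K, φ (algebraMap K _ x) = σ x :=
  ⟨pw σ hp hpl, sx σ hp hpl, sx_coe σ hp hpl⟩

end

end Pool.Agent.N73.QB
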