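import Mathlib
import Pool.Agent.N73.QB.Emb
import Pool.Agent.N73.QB.Alg

/-!
# Project QB: quadratic fields, embeddings, norms, the quadratic extensions of `ℚ_p`
-/

set_option autoImplicit false

namespace Pool.Agent.N73.QB

open IsDedekindDomain NumberField

section emb

variable {K : Type} [Field K] [CharZero K] {D : ℚ} {r : K}

lemma exists_emb (hr : r ^ 2 = (D : K)) (hD : ¬ IsSquare D)
    (hK : ∀ x : K, ∃ a b : ℚ, x = (a : K) + (b : K) * r)
    {F : Type} [Field F] [CharZero F] {s : F} (hs : s ^ 2 = (D : F)) :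
    ∃ σ : K →+* F, ∀ a b : ℚ, σ ((a : K) + (b : K) * r) = (a : F) + (b : F) * s := by
  choose A B hAB using hK
  have uniq : ∀ a b a' b' : ℚ, (a : K) + (b : K) * r = (a' : K) + (b' : K) * r →
      a = a' ∧ b = b' := fun a b a' b' h =>
    lin_ext (k := ℚ) (L := K) (s := r) (D := D) (by rw [hr, eq_ratCast]) hD (by
      simpa [eq_ratCast] using h)
  have hc : ∀ a b : ℚ, A ((a : K) + (b : K) * r) = a ∧ B ((a : K) + (b : K) * r) = b := by
    intro a b
    have := uniq _ _ _ _ (hAB ((a : K) + (b : K) * r))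
    exact ⟨this.1.symm, this.2.symm⟩
  refine ⟨{ toFun := fun x => (A x : F) + (B x : F) * s
            map_one' := ?_, map_mul' := ?_, map_zero' := ?_, map_add' := ?_ }, ?_⟩
  · have h := hc 1 0
    have e : ((1 : ℚ) : K) + ((0 : ℚ) : K) * r = 1 := by simp
    rw [e] at h
    rw [h.1, h.2]; simp
  · intro x y
    have h := hc (A x * A y + D * (B x * B y)) (A x * B y + B x * A y)
    have e : ((A x * A y + D * (B x * B y) : ℚ) : K) + ((A x * B y + B x * A y : ℚ) : K) * r =
        x * y := by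
      conv_rhs => rw [hAB x, hAB y]
      push_cast
      linear_combination (-((B x : K) * (B y : K))) * hr
    rw [e] at h
    rw [h.1, h.2]
    push_cast
    linear_combination (-((B x : F) * (B y : F))) * hs
  · have h := hc 0 0
    have e : ((0 : ℚ) : K) + ((0 : ℚ) : K) * r = 0 := by simp
    rw [e] at h
    show (A 0 : F) + (B 0 : F) * s = 0
    rw [h.1, h.2]; simp
  · intro x y
    have h := hc (A x + A y) (B x + B y)
    have e : ((A x + A y : ℚ) : K) + ((B x + B y : ℚ) : K) * r = x + y := by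
      conv_rhs => rw [hAB x, hAB y]
      push_cast
      ring
    rw [e] at h
    show (A (x + y) : F) + (B (x + y) : F) * s = (A x + B x * s) + (A y + B y * s)
    rw [h.1, h.2]
    push_cast
    ring
  · intro a b
    show (A _ : F) + (B _ : F) * s = _
    rw [(hc a b).1, (hc a b).2]

end emb

section nrm

variable {K : Type} [Field K] [NumberField K] {D : ℚ} {r : K}

lemma norm_quad (hr : r ^ 2 = (D : K)) (hD : ¬ IsSquare D)
    (hK : ∀ x : K, ∃ a b : ℚ, x = (a : K) + (b : K) * r) (a b : ℚ) :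
    Algebra.norm ℚ ((a : K) + (b : K) * r) = a ^ 2 - D * b ^ 2 := by
  have hli : LinearIndependent ℚ ![(1 : K), r] := by
    rw [LinearIndependent.pair_iff]
    intro α β h
    refine lin_zero (k := ℚ) (L := K) (s := r) (D := D) (by rw [hr, eq_ratCast]) hD ?_
    rw [Algebra.smul_def, Algebra.smul_def, mul_one] at h
    exact h
  have hsp : ⊤ ≤ Submodule.span ℚ (Set.range ![(1 : K), r]) := by
    intro x _
    obtain ⟨α, β, rfl⟩ := hK x
    rw [Matrix.range_cons, Matrix.range_cons, Matrix.range_empty, Set.union_empty,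
      Set.singleton_union, Submodule.mem_span_pair]
    exact ⟨α, β, by simp [Algebra.smul_def]⟩
  let bs : Module.Basis (Fin 2) ℚ K := Module.Basis.mk hli hsp
  have b0 : bs 0 = 1 := by simp [bs]
  have b1 : bs 1 = r := by simp [bs]
  rw [Algebra.norm_eq_matrix_det bs]
  have hrep : ∀ α β : ℚ, bs.repr ((α : K) + (β : K) * r) = 
      Finsupp.single 0 α + Finsupp.single 1 β := by
    intro α β
    have : (α : K) + (β : K) * r = α • bs 0 + β • bs 1 := by
      rw [b0, b1, Algebra.smul_def, Algebra.smul_def, mul_one, eq_ratCast, eq_ratCast]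
    rw [this, map_add, map_smul, map_smul, bs.repr_self, bs.repr_self]
    simp
  have hm : Algebra.leftMulMatrix bs ((a : K) + (b : K) * r) = !![a, D * b; b, a] := by
    ext i j
    rw [Algebra.leftMulMatrix_eq_repr_mul]
    fin_cases j
    · simp only [Fin.zero_eta, b0, mul_one, hrep]
      fin_cases i <;> simp
    · have : ((a : K) + (b : K) * r) * bs 1 = ((D * b : ℚ) : K) + (a : K) * r := by
        rw [b1]; push_cast; linear_combination (b : K) * hr
      simp only [Fin.mk_one, this, hrep]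
      fin_cases i <;> simp
  rw [hm, Matrix.det_fin_two_of]
  ring

end nrm

section loc

variable {p : ℕ} [Fact p.Prime]

lemma span_adj {s : PadicAlgCl p} {D : ℚ_[p]} (hs : s ^ 2 = algebraMap ℚ_[p] (PadicAlgCl p) D)
    {x : PadicAlgCl p} (hx : x ∈ IntermediateField.adjoin ℚ_[p] {s}) :
    ∃ α β : ℚ_[p], x = algebraMap ℚ_[p] (PadicAlgCl p) α + algebraMap ℚ_[p] (PadicAlgCl p) β * s := by
  have hi : IsIntegral ℚ_[p] s := Algebra.IsIntegral.isIntegral s
  rw [← IntermediateField.mem_toSubalgebra,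
    IntermediateField.adjoin_simple_toSubalgebra_of_isAlgebraic hi.isAlgebraic] at hx
  induction hx using Algebra.adjoin_induction with
  | mem x hx =>
    rw [Set.mem_singleton_iff] at hx
    exact ⟨0, 1, by rw [hx]; simp⟩
  | algebraMap x => exact ⟨x, 0, by simp⟩
  | add x y _ _ hx hy =>
    obtain ⟨α, β, rfl⟩ := hx
    obtain ⟨γ, δ, rfl⟩ := hy
    exact ⟨α + γ, β + δ, by rw [map_add, map_add]; ring⟩
  | mul x y _ _ hx hy =>
    obtain ⟨α, β, rfl⟩ := hx
    obtain ⟨γ, δ, rfl⟩ := hy
    refine ⟨α * γ + D * β * δ, α * δ + β * γ, ?_⟩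
    simp only [map_add, map_mul]
    linear_combination (algebraMap ℚ_[p] (PadicAlgCl p) β * algebraMap ℚ_[p] (PadicAlgCl p) δ) * hs

/-- a quadratic extension of `ℚ_p` as a complete normed field -/
theorem exists_quad (D : ℚ_[p]) : ∃ (L : Type) (_ : NormedField L) (_ : IsUltrametricDist L)
    (_ : CompleteSpace L) (_ : Algebra ℚ_[p] L) (s : L), s ^ 2 = algebraMap ℚ_[p] L D ∧
    ‖(p : L)‖ < 1 ∧
    ∀ x : L, ∃ α β : ℚ_[p], x = algebraMap ℚ_[p] L α + algebraMap ℚ_[p] L β * s := by
  obtain ⟨s, hs⟩ := IsAlgClosed.exists_pow_nat_eq (algebraMap ℚ_[p] (PadicAlgCl p) D) (n := 2)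
    (by norm_num)
  have hi : IsIntegral ℚ_[p] s := Algebra.IsIntegral.isIntegral s
  have hfd : FiniteDimensional ℚ_[p] (IntermediateField.adjoin ℚ_[p] {s}) :=
    IntermediateField.adjoin.finiteDimensional hi
  refine ⟨IntermediateField.adjoin ℚ_[p] {s}, inferInstance, inferInstance, ?_, inferInstance,
    ⟨s, IntermediateField.mem_adjoin_simple_self _ s⟩, ?_, ?_, ?_⟩
  · exact FiniteDimensional.complete ℚ_[p] _
  · apply Subtype.ext
    exact hs
  · show ‖((p : (IntermediateField.adjoin ℚ_[p] {s} : IntermediateField _ _)) : PadicAlgCl p)‖ < 1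
    have e : ((p : (IntermediateField.adjoin ℚ_[p] {s} : IntermediateField _ _)) : PadicAlgCl p) =
      ((p : ℚ_[p]) : PadicAlgCl p) := by simp
    rw [e, PadicAlgCl.norm_extends, Padic.norm_p]
    exact inv_lt_one_of_one_lt₀ (by exact_mod_cast (Fact.out : p.Prime).one_lt)
  · rintro ⟨x, hx⟩
    obtain ⟨α, β, h⟩ := span_adj hs hx
    exact ⟨α, β, Subtype.ext h⟩

end loc

end Pool.Agent.N73.QB
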