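import Pool.Agent.N856.QB.Stm
import Pool.Agent.N73.QB.Quad

/-!
# Project QB: the norm maps the 2-Selmer group to the 2-Selmer group, theorem `t_NRM : S_NRM`
-/

set_option autoImplicit false

namespace Pool.Agent.N73.QB

open IsDedekindDomain NumberField

open Pool.Agent.N856.QB (Lo Se Qf S_NRM)
open Pool.Agent.TH841.SH (LocC SelG pt_real pt_pad)

lemma lo_map {F F' : Type} [Field F] [Field F'] (φ : F →+* F') {a b c : ℤ} {u v : F}
    (h : Lo F a b c u v) : Cl (a : F') (b : F') (c : F') (φ u) (φ v) := by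
  obtain ⟨x, y, hy, he, h1, h2⟩ := h
  refine ⟨φ x, φ y, (map_ne_zero φ).2 hy, ?_, ?_, ?_⟩
  · rw [← map_pow, he]
    simp
  · have := h1.map φ
    rwa [map_mul, map_sub, map_intCast] at this
  · have := h2.map φ
    rwa [map_mul, map_sub, map_intCast] at this

lemma real_ext {K : Type} [Field K] [NumberField K] (σ : K →+* ℝ) :
    ∃ (v : InfinitePlace K) (φ : v.Completion →+* ℝ), ∀ x : K,
      φ (algebraMap K v.Completion x) = σ x := by
  have hr : ComplexEmbedding.IsReal (Complex.ofRealHom.comp σ) := by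
    rw [ComplexEmbedding.isReal_iff]
    ext x
    simp [ComplexEmbedding.conjugate_coe_eq]
  have hv : InfinitePlace.IsReal (InfinitePlace.mk (Complex.ofRealHom.comp σ)) :=
    ⟨_, hr, rfl⟩
  refine ⟨InfinitePlace.mk (Complex.ofRealHom.comp σ),
    InfinitePlace.Completion.extensionEmbeddingOfIsReal hv, fun x => ?_⟩
  have h1 := InfinitePlace.Completion.extensionEmbeddingOfIsReal_coe hv
    ((WithAbs.equiv _).symm x)
  have h2 : InfinitePlace.Completion.extensionEmbeddingOfIsReal hv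
      (algebraMap K (InfinitePlace.mk (Complex.ofRealHom.comp σ)).Completion x) =
      InfinitePlace.embedding_of_isReal hv x := h1
  rw [h2]
  have h3 := InfinitePlace.embedding_of_isReal_apply hv x
  rw [InfinitePlace.embedding_mk_eq_of_isReal hr] at h3
  exact Complex.ofReal_injective h3

lemma cl_fin {F : Type} [Field F] [CharZero F] {a b c u v : ℤ} {N₁ N₂ : ℚ}
    (h : Cl (a : F) (b : F) (c : F) (N₁ : F) (N₂ : F)) (h1 : N₁ ≠ 0) (h2 : N₂ ≠ 0)
    (hu : IsSquare (N₁ * u)) (hv : IsSquare (N₂ * v)) : LocC F a b c u v := by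
  have := h.congr (m₁ := (u : F)) (m₂ := (v : F))
    (by have := hu.map (Rat.castHom F); simpa using this)
    (by have := hv.map (Rat.castHom F); simpa using this)
    (Rat.cast_ne_zero.2 h1) (Rat.cast_ne_zero.2 h2)
  exact this

lemma not_sq {D : ℕ} (hD : Squarefree D) (h1 : 1 < D) : ¬ IsSquare ((D : ℕ) : ℚ) := by
  rintro h
  rw [Rat.isSquare_natCast_iff] at h
  obtain ⟨m, hm⟩ := h
  have h3 : IsUnit m := hD m (by rw [hm])
  rw [Nat.isUnit_iff] at h3
  subst h3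
  omega

theorem t_NRM : S_NRM := by
  intro D hD1 hD2 K _ _ r hq a b c hab hac hbc z hz u v hu hv hzu hzv
  have hDs := not_sq hD1 hD2
  have hr : r ^ 2 = (((D : ℕ) : ℚ) : K) := by rw [hq.hr, Rat.cast_natCast]
  obtain ⟨hz1, hz2, hfin, hinf⟩ := hz
  obtain ⟨z₁, z₂⟩ := z
  simp only at hz1 hz2 hfin hinf hzu hzv
  obtain ⟨a₁, b₁, rfl⟩ := hq.hK z₁
  obtain ⟨a₂, b₂, rfl⟩ := hq.hK z₂
  rw [norm_quad hr hDs hq.hK] at hzu hzv
  have hn1 : a₁ ^ 2 - ((D : ℕ) : ℚ) * b₁ ^ 2 ≠ 0 := by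
    rw [← norm_quad hr hDs hq.hK, Algebra.norm_ne_zero_iff]
    exact hz1
  have hn2 : a₂ ^ 2 - ((D : ℕ) : ℚ) * b₂ ^ 2 ≠ 0 := by
    rw [← norm_quad hr hDs hq.hK, Algebra.norm_ne_zero_iff]
    exact hz2
  -- split completions
  have split : ∀ (F : Type) [Field F] [CharZero F] (s : F), s ^ 2 = ((D : ℕ) : F) →
      Pt0 (a : F) (b : F) (c : F) →
      (∀ σ : K →+* F, Cl (a : F) (b : F) (c : F) (σ ((a₁ : K) + b₁ * r)) (σ ((a₂ : K) + b₂ * r))) →
      LocC F a b c u v := by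
    intro F _ _ s hs h0 hσ
    obtain ⟨σ, h1⟩ := exists_emb (F := F) (s := s) hr hDs hq.hK (by rw [hs, Rat.cast_natCast])
    obtain ⟨τ, h2⟩ := exists_emb (F := F) (s := -s) hr hDs hq.hK
      (by rw [neg_sq, hs, Rat.cast_natCast])
    have h := sum_pt (by exact_mod_cast hab) (by exact_mod_cast hac) (by exact_mod_cast hbc) h0
      (hσ σ) (hσ τ)
    rw [h1, h1, h2, h2] at h
    refine cl_fin (N₁ := a₁ ^ 2 - ((D : ℕ) : ℚ) * b₁ ^ 2)
      (N₂ := a₂ ^ 2 - ((D : ℕ) : ℚ) * b₂ ^ 2) ?_ hn1 hn2 hzu hzv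
    convert h using 1
    · push_cast
      linear_combination ((b₁ : F) ^ 2) * hs
    · push_cast
      linear_combination ((b₂ : F) ^ 2) * hs
  refine ⟨hu, hv, ?_, ?_⟩
  · refine split ℝ (Real.sqrt D) (Real.sq_sqrt (Nat.cast_nonneg D)) (pt_real a b c) fun σ => ?_
    obtain ⟨w, φ, hφ⟩ := real_ext σ
    have := lo_map φ (hinf w)
    rwa [hφ, hφ] at this
  · intro p _
    by_cases hsq : IsSquare ((D : ℕ) : ℚ_[p])
    · obtain ⟨s, hs⟩ := hsq
      refine split ℚ_[p] s (by rw [hs, sq]) (pt_pad p a b c) fun σ => ?_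
      obtain ⟨w, φ, hφ⟩ := exists_hom σ (Fact.out : p.Prime).ne_zero (Padic.norm_p_lt_one (p := p))
      have := lo_map φ (hfin w)
      rwa [hφ, hφ] at this
    · obtain ⟨L, i1, i2, i3, i4, s, hs, hpl, hL⟩ := exists_quad (p := p) ((D : ℕ) : ℚ_[p])
      have i5 : CharZero L := charZero_of_injective_algebraMap (algebraMap ℚ_[p] L).injective
      obtain ⟨σ, hσ⟩ := exists_emb (F := L) (s := s) hr hDs hq.hK
        (by rw [hs, Rat.cast_natCast, map_natCast])
      obtain ⟨w, φ, hφ⟩ := exists_hom σ (Fact.out : p.Prime).ne_zero hpl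
      have h := lo_map φ (hfin w)
      rw [hφ, hφ, hσ, hσ] at h
      have hc : ∀ n : ℤ, (n : L) = algebraMap ℚ_[p] L (n : ℚ_[p]) := fun n => (map_intCast _ n).symm
      have hc' : ∀ n : ℚ, (n : L) = algebraMap ℚ_[p] L (n : ℚ_[p]) := fun n =>
        (map_ratCast _ n).symm
      rw [hc, hc, hc, hc', hc', hc', hc'] at h
      have h' := quad_pt hs hsq hL (by exact_mod_cast hab) (by exact_mod_cast hac)
        (by exact_mod_cast hbc) (pt_pad p a b c) h
      refine cl_fin (N₁ := a₁ ^ 2 - ((D : ℕ) : ℚ) * b₁ ^ 2)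
        (N₂ := a₂ ^ 2 - ((D : ℕ) : ℚ) * b₂ ^ 2) ?_ hn1 hn2 hzu hzv
      convert h' using 1 <;> push_cast <;> rfl

end Pool.Agent.N73.QB
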