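import Pool.Agent.N856.QB.Stm2
import Pool.Agent.N814.JL.MER
import Pool.Agent.N713.QB.FEW

/-!
# QB-NO: normal order of the number of (inert) prime factors (helper73)
-/

set_option autoImplicit false

open scoped Classical

namespace Pool.Agent.N73.QB.NO

open Finset
open Pool.Agent.N856.JL (Dsc)
open Pool.Agent.N856.QB (inr S_NOn S_NOd)

/-- the primes up to `X` with the property `P` -/
noncomputable def TP (P : ℕ → Prop) (X : ℕ) : Finset ℕ := (Icc 1 X).filter fun p => p.Prime ∧ P p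

lemma mem_TP (P : ℕ → Prop) (X p : ℕ) : p ∈ TP P X ↔ (1 ≤ p ∧ p ≤ X) ∧ p.Prime ∧ P p := by
  rw [TP, mem_filter, mem_Icc]

/-- the sum of their reciprocals -/
noncomputable def LP (P : ℕ → Prop) (X : ℕ) : ℝ := ∑ p ∈ TP P X, (1 : ℝ) / p

lemma card_mult (X m : ℕ) : ((Icc 1 X).filter fun n => m ∣ n).card = X / m := by
  rw [← Nat.Ioc_filter_dvd_card_eq_div X m]
  rfl

lemma w_eq (P : ℕ → Prop) (X n : ℕ) (hn : n ∈ Icc 1 X) :
    ((n.primeFactors.filter P).card : ℝ) = ∑ p ∈ TP P X, if p ∣ n then (1 : ℝ) else 0 := by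
  rw [mem_Icc] at hn
  rw [sum_ite, sum_const_zero, add_zero, sum_const, nsmul_eq_mul, mul_one]
  congr 2
  ext p
  simp only [TP, mem_filter, mem_Icc, Nat.mem_primeFactors]
  constructor
  · rintro ⟨⟨h1, h2, h3⟩, h4⟩
    exact ⟨⟨⟨h1.one_lt.le, (Nat.le_of_dvd (by omega) h2).trans hn.2⟩, h1, h4⟩, h2⟩
  · rintro ⟨⟨⟨h1, h2⟩, h3, h4⟩, h5⟩
    exact ⟨⟨h3, h5, by omega⟩, h4⟩

lemma LP_nonneg (P : ℕ → Prop) (X : ℕ) : 0 ≤ LP P X :=
  sum_nonneg fun _ _ => by positivity

lemma sum_w (P : ℕ → Prop) (X : ℕ) :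
    (X : ℝ) * LP P X - X ≤ ∑ n ∈ Icc 1 X, ((n.primeFactors.filter P).card : ℝ) := by
  have e : ∑ n ∈ Icc 1 X, ((n.primeFactors.filter P).card : ℝ) =
      ∑ p ∈ TP P X, ((X / p : ℕ) : ℝ) := by
    rw [sum_congr rfl fun n hn => w_eq P X n hn, sum_comm]
    refine sum_congr rfl fun p _ => ?_
    rw [sum_ite, sum_const_zero, add_zero, sum_const, nsmul_eq_mul, mul_one, card_mult]
  rw [e]
  have h1 : ∀ p ∈ TP P X, (X : ℝ) * (1 / p) - 1 ≤ ((X / p : ℕ) : ℝ) := by
    intro p hp
    have hp0 : 0 < p := by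
      rw [TP, mem_filter] at hp
      exact hp.2.1.pos
    have h2 : X < p * (X / p) + p := by
      have := Nat.div_add_mod X p
      have := Nat.mod_lt X hp0
      omega
    have h3 : (X : ℝ) < p * ((X / p : ℕ) : ℝ) + p := by exact_mod_cast h2
    have hp1 : (0 : ℝ) < p := by exact_mod_cast hp0
    rw [sub_le_iff_le_add, mul_one_div, div_le_iff₀ hp1]
    nlinarith
  have h2 := sum_le_sum h1
  rw [sum_sub_distrib, ← mul_sum, sum_const, nsmul_eq_mul, mul_one] at h2
  have h3 : ((TP P X).card : ℝ) ≤ X := by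
    have : (TP P X).card ≤ (Icc 1 X).card := card_filter_le _ _
    rw [Nat.card_Icc] at this
    exact_mod_cast this.trans (by omega)
  unfold LP
  linarith

lemma sum_w2 (P : ℕ → Prop) (X : ℕ) :
    ∑ n ∈ Icc 1 X, ((n.primeFactors.filter P).card : ℝ) ^ 2 ≤
      (X : ℝ) * LP P X ^ 2 + X * LP P X := by
  have e : ∑ n ∈ Icc 1 X, ((n.primeFactors.filter P).card : ℝ) ^ 2 =
      ∑ p ∈ TP P X, ∑ q ∈ TP P X, (((Icc 1 X).filter fun n => p ∣ n ∧ q ∣ n).card : ℝ) := by
    rw [sum_congr rfl fun n hn => by rw [w_eq P X n hn, sq, sum_mul_sum], sum_comm]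
    refine sum_congr rfl fun p _ => ?_
    rw [sum_comm]
    refine sum_congr rfl fun q _ => ?_
    rw [card_filter, Nat.cast_sum]
    refine sum_congr rfl fun n _ => ?_
    by_cases h1 : p ∣ n <;> by_cases h2 : q ∣ n <;> simp [h1, h2]
  rw [e]
  have h1 : ∀ p ∈ TP P X, ∀ q ∈ TP P X, (((Icc 1 X).filter fun n => p ∣ n ∧ q ∣ n).card : ℝ) ≤
      (X : ℝ) * (1 / p * (1 / q)) + if p = q then (X : ℝ) * (1 / p) else 0 := by
    intro p hp q hq
    have hpp : p.Prime := by
      rw [TP, mem_filter] at hp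
      exact hp.2.1
    have hqp : q.Prime := by
      rw [TP, mem_filter] at hq
      exact hq.2.1
    split_ifs with hpq
    · subst hpq
      have e1 : ((Icc 1 X).filter fun n => p ∣ n ∧ p ∣ n) = (Icc 1 X).filter fun n => p ∣ n :=
        filter_congr fun n _ => by simp
      rw [e1, card_mult]
      have h3 : ((X / p : ℕ) : ℝ) ≤ (X : ℝ) / p := Nat.cast_div_le
      have h4 : (0 : ℝ) ≤ (X : ℝ) * (1 / p * (1 / p)) := by positivity
      have h5 : (X : ℝ) * (1 / p) = X / p := by ring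
      linarith
    · have e1 : ((Icc 1 X).filter fun n => p ∣ n ∧ q ∣ n) = (Icc 1 X).filter fun n => p * q ∣ n :=
        filter_congr fun n _ =>
          ⟨fun h => ((Nat.coprime_primes hpp hqp).2 hpq).mul_dvd_of_dvd_of_dvd h.1 h.2,
            fun h => ⟨(dvd_mul_right _ _).trans h, (dvd_mul_left _ _).trans h⟩⟩
      rw [e1, card_mult, add_zero]
      have h3 : ((X / (p * q) : ℕ) : ℝ) ≤ (X : ℝ) / ((p * q : ℕ) : ℝ) := Nat.cast_div_le
      refine h3.trans (le_of_eq ?_)
      push_cast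
      rw [one_div, one_div, ← mul_inv, div_eq_mul_inv]
  have h2 := sum_le_sum fun p hp => sum_le_sum (h1 p hp)
  refine h2.trans (le_of_eq ?_)
  have e2 : ∀ p ∈ TP P X, ∑ q ∈ TP P X, ((X : ℝ) * (1 / p * (1 / q)) +
      if p = q then (X : ℝ) * (1 / p) else 0) = (X : ℝ) * (1 / p * LP P X) + X * (1 / p) := by
    intro p hp
    rw [sum_add_distrib, sum_ite_eq, if_pos hp, ← mul_sum, ← mul_sum]
    rfl
  rw [sum_congr rfl e2, sum_add_distrib, ← mul_sum, ← mul_sum, ← sum_mul]
  change (X : ℝ) * (LP P X * LP P X) + X * LP P X = _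
  ring

/-- Turán's inequality -/
lemma turan (P : ℕ → Prop) (X : ℕ) :
    ∑ n ∈ Icc 1 X, (((n.primeFactors.filter P).card : ℝ) - LP P X) ^ 2 ≤ 3 * X * LP P X := by
  have e : ∑ n ∈ Icc 1 X, (((n.primeFactors.filter P).card : ℝ) - LP P X) ^ 2 =
      ∑ n ∈ Icc 1 X, ((n.primeFactors.filter P).card : ℝ) ^ 2 -
        2 * LP P X * ∑ n ∈ Icc 1 X, ((n.primeFactors.filter P).card : ℝ) + X * LP P X ^ 2 := by
    have : ∀ n ∈ Icc 1 X, (((n.primeFactors.filter P).card : ℝ) - LP P X) ^ 2 =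
        ((n.primeFactors.filter P).card : ℝ) ^ 2 -
        2 * LP P X * ((n.primeFactors.filter P).card : ℝ) + LP P X ^ 2 := fun n _ => by ring
    rw [sum_congr rfl this, sum_add_distrib, sum_sub_distrib, ← mul_sum, sum_const, nsmul_eq_mul,
      Nat.card_Icc]
    simp
  rw [e]
  have h1 := sum_w P X
  have h2 := sum_w2 P X
  have h3 := LP_nonneg P X
  have h4 := mul_le_mul_of_nonneg_left h1 (by linarith : (0 : ℝ) ≤ 2 * LP P X)
  nlinarith

/-- Chebyshev's inequality -/
lemma cheb (P : ℕ → Prop) (X : ℕ) (t : ℝ) (ht : 0 < t) :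
    (((Icc 1 X).filter fun n => t < |((n.primeFactors.filter P).card : ℝ) - LP P X|).card : ℝ) *
      t ^ 2 ≤ 3 * X * LP P X := by
  refine le_trans ?_ (turan P X)
  refine le_trans ?_ (sum_le_sum_of_subset_of_nonneg (filter_subset
    (fun n => t < |((n.primeFactors.filter P).card : ℝ) - LP P X|) _) fun _ _ _ => sq_nonneg _)
  rw [← nsmul_eq_mul, ← sum_const]
  refine sum_le_sum fun n hn => ?_
  rw [mem_filter] at hn
  rw [← sq_abs (((n.primeFactors.filter P).card : ℝ) - LP P X)]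
  exact pow_le_pow_left₀ ht.le hn.2.le 2

open Filter Topology in
lemma tendsto_ll : Tendsto (fun X : ℕ => Real.log (Real.log X)) atTop atTop :=
  Real.tendsto_log_atTop.comp (Real.tendsto_log_atTop.comp tendsto_natCast_atTop_atTop)

open Filter Topology in
/-- the normal order, in general -/
lemma normal (P : ℕ → Prop) (κ C : ℝ) (hκ : 0 ≤ κ) (hκ1 : κ ≤ 1)
    (hC : ∀ X : ℕ, 3 ≤ X → |LP P X - κ * Real.log (Real.log X)| ≤ C) (δ ε : ℝ) (hδ : 0 < δ)
    (hε : 0 < ε) : ∃ X₀ : ℕ, ∀ X : ℕ, X₀ ≤ X →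
    (((Icc 1 X).filter fun n : ℕ => δ * Real.log (Real.log n) <
      |((n.primeFactors.filter P).card : ℝ) - κ * Real.log (Real.log n)|).card : ℝ) ≤ ε * X := by
  have hC0 : 0 ≤ C := (abs_nonneg _).trans (hC 3 le_rfl)
  have hlog2 : 0 < Real.log 2 := Real.log_pos (by norm_num)
  set A : ℝ := max (max 1 (2 / δ * (δ * Real.log 2 + Real.log 2 + C + 1)))
    (24 * (1 + C) / (ε * δ ^ 2)) with hA
  obtain ⟨X₀, hX₀⟩ := eventually_atTop.1 (tendsto_ll.eventually_ge_atTop A)
  obtain ⟨N, hN⟩ := exists_nat_gt (2 / ε)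
  refine ⟨max (max X₀ 16) (N ^ 2), fun X hX => ?_⟩
  have hX1 : X₀ ≤ X := (le_max_left _ _).trans ((le_max_left _ _).trans hX)
  have hX2 : 16 ≤ X := (le_max_right _ _).trans ((le_max_left _ _).trans hX)
  have hX3 : N ^ 2 ≤ X := (le_max_right _ _).trans hX
  have hll := hX₀ X hX1
  set l : ℝ := Real.log (Real.log X) with hl
  have hl1 : 1 ≤ l := ((le_max_left _ _).trans (le_max_left _ _)).trans hll
  have hl2 : 2 / δ * (δ * Real.log 2 + Real.log 2 + C + 1) ≤ l :=
    ((le_max_right _ _).trans (le_max_left _ _)).trans hll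
  have hl3 : 24 * (1 + C) / (ε * δ ^ 2) ≤ l := (le_max_right _ _).trans hll
  have hl2' : δ * Real.log 2 + Real.log 2 + C + 1 ≤ δ / 2 * l := by
    have := mul_le_mul_of_nonneg_left hl2 (by positivity : (0 : ℝ) ≤ δ / 2)
    have e : δ / 2 * (2 / δ * (δ * Real.log 2 + Real.log 2 + C + 1)) =
        δ * Real.log 2 + Real.log 2 + C + 1 := by field_simp
    linarith
  have hLX := hC X (by omega)
  rw [← hl, abs_le] at hLX
  set t : ℝ := δ / 2 * l with ht
  have ht0 : 0 < t := by positivity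
  have hX0 : (0 : ℝ) < X := by exact_mod_cast (by omega : 0 < X)
  -- the two parts
  have hsub : ((Icc 1 X).filter fun n : ℕ => δ * Real.log (Real.log n) <
      |((n.primeFactors.filter P).card : ℝ) - κ * Real.log (Real.log n)|) ⊆
      ((Icc 1 X).filter fun n => t < |((n.primeFactors.filter P).card : ℝ) - LP P X|) ∪
        Icc 1 (Nat.sqrt X) := by
    intro n hn
    rw [mem_filter, mem_Icc] at hn
    obtain ⟨⟨hn1, hn2⟩, hn3⟩ := hn
    rw [mem_union]
    by_cases hs : n ≤ Nat.sqrt X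
    · right
      exact mem_Icc.2 ⟨hn1, hs⟩
    left
    rw [mem_filter, mem_Icc]
    refine ⟨⟨hn1, hn2⟩, ?_⟩
    have hs2 : X < n * n := Nat.sqrt_lt.1 (not_le.1 hs)
    have hn0 : (0 : ℝ) < n := by exact_mod_cast hn1
    have hlX : 0 < Real.log X := Real.log_pos (by exact_mod_cast (by omega : 1 < X))
    have hl4 : Real.log X ≤ 2 * Real.log n := by
      have h1 : Real.log X ≤ Real.log ((n : ℝ) * n) :=
        Real.log_le_log hX0 (by exact_mod_cast hs2.le)
      rw [Real.log_mul hn0.ne' hn0.ne'] at h1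
      linarith
    have hln : 0 < Real.log n := by linarith
    have hup : Real.log (Real.log n) ≤ l :=
      Real.log_le_log hln (Real.log_le_log hn0 (by exact_mod_cast hn2))
    have hlo : l - Real.log 2 ≤ Real.log (Real.log n) := by
      have h1 : Real.log (Real.log X) ≤ Real.log (2 * Real.log n) := Real.log_le_log hlX hl4
      rw [Real.log_mul (by norm_num) hln.ne'] at h1
      rw [hl]
      linarith
    have h5 : |((n.primeFactors.filter P).card : ℝ) - κ * Real.log (Real.log n)| ≤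
        |((n.primeFactors.filter P).card : ℝ) - LP P X| + |LP P X - κ * l| +
          |κ * l - κ * Real.log (Real.log n)| := by
      have h6 := abs_sub_le ((n.primeFactors.filter P).card : ℝ) (LP P X)
        (κ * Real.log (Real.log n))
      have h7 := abs_sub_le (LP P X) (κ * l) (κ * Real.log (Real.log n))
      linarith
    have h8 : |κ * l - κ * Real.log (Real.log n)| ≤ Real.log 2 := by
      rw [← mul_sub, abs_mul, abs_of_nonneg hκ, abs_of_nonneg (by linarith)]
      nlinarith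
    have h9 : |LP P X - κ * l| ≤ C := abs_le.2 hLX
    have h10 : δ * (l - Real.log 2) ≤ δ * Real.log (Real.log n) :=
      mul_le_mul_of_nonneg_left hlo hδ.le
    have h11 : δ * l = 2 * t := by rw [ht]; ring
    nlinarith
  have h1 := card_le_card hsub
  have h2 := h1.trans (card_union_le _ _)
  rw [Nat.card_Icc] at h2
  have h3 : ((((Icc 1 X).filter fun n => t < |((n.primeFactors.filter P).card : ℝ) -
      LP P X|).card : ℕ) : ℝ) ≤ ε / 2 * X := by
    have h4 := cheb P X t ht0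
    have h5 : LP P X ≤ (1 + C) * l := by nlinarith
    have h6 : 3 * (X : ℝ) * LP P X ≤ ε / 2 * X * t ^ 2 := by
      have h7 : 24 * (1 + C) ≤ l * (ε * δ ^ 2) := (div_le_iff₀ (by positivity)).1 hl3
      have h8 : 24 * (1 + C) * l ≤ l * (ε * δ ^ 2) * l :=
        mul_le_mul_of_nonneg_right h7 (by linarith)
      have h9 : t ^ 2 * 4 = δ ^ 2 * l ^ 2 := by rw [ht]; ring
      have h10 : 3 * LP P X ≤ ε / 2 * t ^ 2 := by nlinarith
      nlinarith
    have h7 := h4.trans h6
    exact le_of_mul_le_mul_right h7 (by positivity)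
  have h4 : ((Nat.sqrt X : ℕ) : ℝ) ≤ ε / 2 * X := by
    have h5 : N ≤ Nat.sqrt X := Nat.le_sqrt.2 (by rw [← sq]; exact hX3)
    have h6 : 2 / ε < ((Nat.sqrt X : ℕ) : ℝ) := lt_of_lt_of_le hN (by exact_mod_cast h5)
    have h7 : ((Nat.sqrt X : ℕ) : ℝ) * ((Nat.sqrt X : ℕ) : ℝ) ≤ X := by
      exact_mod_cast Nat.sqrt_le X
    rw [div_lt_iff₀ hε] at h6
    have h8 : (0 : ℝ) ≤ ((Nat.sqrt X : ℕ) : ℝ) := Nat.cast_nonneg _
    nlinarith
  have h5 : ((((Icc 1 X).filter fun n : ℕ => δ * Real.log (Real.log n) <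
      |((n.primeFactors.filter P).card : ℝ) - κ * Real.log (Real.log n)|).card : ℕ) : ℝ) ≤
      (((Icc 1 X).filter fun n => t < |((n.primeFactors.filter P).card : ℝ) -
        LP P X|).card : ℝ) + ((Nat.sqrt X : ℕ) : ℝ) := by
    rw [← Nat.cast_add, Nat.cast_le]
    simpa using h2
  linarith

/-- the sum over a class modulo `Q` -/
lemma class_sum (Q : ℕ) (hQ : 1 ≤ Q) (A : Finset ℕ) (hA : ∀ a ∈ A, a.Coprime Q ∧ a < Q) :
    ∃ C : ℝ, ∀ X : ℕ, 3 ≤ X → |LP (fun p => p % Q ∈ A) X -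
      (A.card : ℝ) / (Nat.totient Q : ℝ) * Real.log (Real.log X)| ≤ C := by
  have hM : ∀ a : ℕ, ∃ C : ℝ, a ∈ A → ∀ y : ℕ, 3 ≤ y →
      |∑ p ∈ (range (y + 1)).filter (fun p => p.Prime ∧ p % Q = a % Q), (1 : ℝ) / p -
        1 / (Nat.totient Q : ℝ) * Real.log (Real.log y)| ≤ C := by
    intro a
    by_cases ha : a ∈ A
    · obtain ⟨C, hC⟩ := Pool.Agent.N814.JL.MER.t_MEQ Q a hQ (hA a ha).1
      exact ⟨C, fun _ => hC⟩
    · exact ⟨0, fun h => absurd h ha⟩
  choose C hC using hM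
  refine ⟨∑ a ∈ A, C a, fun X hX => ?_⟩
  have e : LP (fun p => p % Q ∈ A) X -
      (A.card : ℝ) / (Nat.totient Q : ℝ) * Real.log (Real.log X) =
      ∑ a ∈ A, (∑ p ∈ (range (X + 1)).filter (fun p => p.Prime ∧ p % Q = a % Q), (1 : ℝ) / p -
        1 / (Nat.totient Q : ℝ) * Real.log (Real.log X)) := by
    rw [sum_sub_distrib, sum_const, nsmul_eq_mul]
    congr 1
    · unfold LP
      rw [← sum_fiberwise_of_maps_to (s := TP (fun p => p % Q ∈ A) X) (t := A)
        (g := fun p => p % Q) (fun p hp => ((mem_TP _ _ _).1 hp).2.2)]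
      refine sum_congr rfl fun a ha => sum_congr ?_ fun _ _ => rfl
      ext p
      rw [mem_filter, mem_TP, mem_filter, mem_range, Nat.mod_eq_of_lt (hA a ha).2]
      constructor
      · rintro ⟨⟨⟨h1, h2⟩, h3, h4⟩, h5⟩
        exact ⟨by omega, h3, h5⟩
      · rintro ⟨h1, h2, h3⟩
        exact ⟨⟨⟨h2.one_lt.le, by omega⟩, h2, by rw [h3]; exact ha⟩, h3⟩
    · ring
  rw [e]
  refine (abs_sum_le_sum_abs _ _).trans (sum_le_sum fun a ha => hC a ha X hX)

/-- a half of the classes are nonresidues -/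
lemma half {d : ℕ} (hd : Squarefree d) (ho : d % 2 = 1) (h1 : 1 < d) :
    2 * ((range d).filter fun a : ℕ => jacobiSym (a : ℤ) d = -1).card = Nat.totient d := by
  obtain ⟨c, hc⟩ := Pool.Agent.N713.QB.FEW.nonres hd ho h1
  have hcop : c.Coprime d := by
    have : IsCoprime (c : ℤ) (d : ℤ) := by
      by_contra hcon
      rw [Int.isCoprime_iff_gcd_eq_one] at hcon
      have hne : NeZero d := ⟨by omega⟩
      have := (jacobiSym.eq_zero_iff_not_coprime (a := (c : ℤ)) (b := d)).2 hcon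
      omega
    exact_mod_cast Nat.isCoprime_iff_coprime.1 this
  have hne : NeZero d := ⟨by omega⟩
  have hmul : ∀ a : ℕ, jacobiSym (((c * a) % d : ℕ) : ℤ) d = - jacobiSym (a : ℤ) d := by
    intro a
    rw [Int.natCast_mod, ← jacobiSym.mod_left, Nat.cast_mul, jacobiSym.mul_left, hc]
    ring
  have hinj : ∀ a b : ℕ, a < d → b < d → (c * a) % d = (c * b) % d → a = b := by
    intro a b ha hb h
    have h2 : c * a ≡ c * b [MOD d] := h
    have h3 : a ≡ b [MOD d] := Nat.ModEq.cancel_left_of_coprime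
      (by rw [Nat.gcd_comm]; exact hcop) h2
    exact Nat.ModEq.eq_of_lt_of_lt h3 ha hb
  have hle : ∀ s : ℤ, ((range d).filter fun a : ℕ => jacobiSym (a : ℤ) d = s).card ≤
      ((range d).filter fun a : ℕ => jacobiSym (a : ℤ) d = -s).card := by
    intro s
    refine card_le_card_of_injOn (fun a => (c * a) % d) ?_ ?_
    · intro a ha
      rw [mem_coe, mem_filter, mem_range] at ha ⊢
      exact ⟨Nat.mod_lt _ (by omega), by rw [hmul, ha.2]⟩
    · intro a ha b hb hab
      rw [mem_coe, mem_filter, mem_range] at ha hb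
      exact hinj a b ha.1 hb.1 hab
  have heq : ((range d).filter fun a : ℕ => jacobiSym (a : ℤ) d = 1).card =
      ((range d).filter fun a : ℕ => jacobiSym (a : ℤ) d = -1).card := by
    refine le_antisymm (hle 1) ?_
    have := hle (-1)
    rwa [neg_neg] at this
  have htot : Nat.totient d = ((range d).filter fun a : ℕ => jacobiSym (a : ℤ) d = 1).card +
      ((range d).filter fun a : ℕ => jacobiSym (a : ℤ) d = -1).card := by
    rw [Nat.totient_eq_card_coprime, ← card_union_of_disjoint]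
    · congr 1
      ext a
      rw [mem_filter, mem_union, mem_filter, mem_filter]
      have h2 := jacobiSym.eq_zero_iff_not_coprime (a := (a : ℤ)) (b := d)
      have h3 : (Int.gcd (a : ℤ) d = 1) ↔ d.Coprime a := by
        rw [Int.gcd_natCast_natCast, Nat.gcd_comm]
      constructor
      · rintro ⟨h4, h5⟩
        have h6 : jacobiSym (a : ℤ) d ≠ 0 := fun h => (h2.1 h) (h3.2 h5)
        rcases jacobiSym.trichotomy (a : ℤ) d with h7 | h7 | h7
        · exact absurd h7 h6
        · exact Or.inl ⟨h4, h7⟩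
        · exact Or.inr ⟨h4, h7⟩
      · intro h
        have h4 : a ∈ range d ∧ jacobiSym (a : ℤ) d ≠ 0 := by
          rcases h with ⟨h5, h6⟩ | ⟨h5, h6⟩
          · exact ⟨h5, by rw [h6]; decide⟩
          · exact ⟨h5, by rw [h6]; decide⟩
        refine ⟨h4.1, h3.1 ?_⟩
        by_contra h7
        exact h4.2 (h2.2 h7)
    · rw [disjoint_filter]
      intro a _ h3 h4
      rw [h3] at h4
      exact absurd h4 (by decide)
  omega

theorem t_NOn : S_NOn := by
  intro d hd h1 δ ε hδ hε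
  obtain ⟨hs, h12, h5⟩ := hd
  have h4 : d % 4 = 1 := by omega
  set A := (range d).filter fun a : ℕ => jacobiSym (a : ℤ) d = -1 with hA
  have hne : NeZero d := ⟨by omega⟩
  have hAc : ∀ a ∈ A, a.Coprime d ∧ a < d := by
    intro a ha
    rw [hA, mem_filter, mem_range] at ha
    refine ⟨?_, ha.1⟩
    have h2 := jacobiSym.eq_zero_iff_not_coprime (a := (a : ℤ)) (b := d)
    by_contra h3
    have h6 : ¬ (Int.gcd (a : ℤ) d = 1) := by
      rw [Int.gcd_natCast_natCast]
      exact h3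
    have := h2.2 h6
    rw [ha.2] at this
    exact absurd this (by decide)
  obtain ⟨C, hC⟩ := class_sum d (by omega) A hAc
  have hhalf := half hs (by omega) h1
  have htp : 0 < Nat.totient d := Nat.totient_pos.2 (by omega)
  have hk : (A.card : ℝ) / (Nat.totient d : ℝ) = 1 / 2 := by
    have h2 : (2 : ℝ) * A.card = Nat.totient d := by exact_mod_cast hhalf
    have h3 : (0 : ℝ) < Nat.totient d := by exact_mod_cast htp
    rw [div_eq_iff h3.ne']
    linarith
  rw [hk] at hC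
  obtain ⟨X₀, hX⟩ := normal (fun p => p % d ∈ A) (1 / 2) C (by norm_num) (by norm_num) hC δ ε hδ hε
  refine ⟨X₀, fun X hX' => le_trans ?_ (hX X hX')⟩
  rw [Nat.cast_le]
  refine card_le_card ?_
  intro n hn
  rw [mem_filter] at hn ⊢
  obtain ⟨hn1, hn2, hn3, hn4⟩ := hn
  refine ⟨hn1, ?_⟩
  have e : (n.primeFactors.filter fun p => p % d ∈ A).card = inr n d := by
    unfold inr
    congr 1
    refine filter_congr fun p hp => ?_
    have hp2 := Nat.mem_primeFactors.1 hp
    have hp3 : p ≠ 2 := by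
      rintro rfl
      have := hp2.2.1
      omega
    have hpo : Odd p := hp2.1.odd_of_ne_two hp3
    rw [hA, mem_filter, mem_range, jacobiSym.quadratic_reciprocity_one_mod_four h4 hpo,
      Int.natCast_mod, ← jacobiSym.mod_left]
    exact ⟨fun h => h.2, fun h => ⟨Nat.mod_lt _ (by omega), h⟩⟩
  have e2 : (((n.primeFactors.filter fun p => p % d ∈ A).card : ℕ) : ℝ) - 1 / 2 *
      Real.log (Real.log n) = (inr n d : ℝ) - Real.log (Real.log n) / 2 := by
    rw [e]
    ring
  rw [← e2] at hn4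
  convert hn4

theorem t_NOd : S_NOd := by
  intro δ ε hδ hε
  obtain ⟨C, hC⟩ := class_sum 1 le_rfl {0} (by simp)
  have hk : (({0} : Finset ℕ).card : ℝ) / (Nat.totient 1 : ℝ) = 1 := by simp
  rw [hk] at hC
  obtain ⟨X₀, hX⟩ := normal (fun p => p % 1 ∈ ({0} : Finset ℕ)) 1 C (by norm_num) le_rfl hC δ ε hδ hε
  refine ⟨X₀, fun X hX' => le_trans ?_ (hX X hX')⟩
  rw [Nat.cast_le]
  refine card_le_card ?_
  intro n hn
  rw [mem_filter] at hn ⊢
  obtain ⟨hn1, hn2, hn3, hn4⟩ := hn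
  refine ⟨hn1, ?_⟩
  have e : ((n.primeFactors.filter fun p => p % 1 ∈ ({0} : Finset ℕ)).card : ℝ) =
      n.primeFactors.card := by
    congr 2
    exact filter_true_of_mem fun p _ => by simp [Nat.mod_one]
  rw [one_mul]
  convert hn4 using 3
  rw [← e]
  congr!

end Pool.Agent.N73.QB.NO
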